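import Pool.Agent.Q203.GT.Mob

/-!
# The pairs with exact period `n` are dense in the pairs with formal period `n`
-/

set_option autoImplicit false
set_option linter.unusedVariables false

namespace Pool.Agent.Q203.GT

open Finset Polynomial Filter
open scoped Topology
open Pool.Agent.Q41.GT
open Pool.Agent.W277.UH (ratP1)

section
variable {A A' : Type*} [CommRing A] [CommRing A']

/-- the line -/
noncomputable def lin (v u : Fin 2 → A) : Fin 2 → A[X] := fun i => C (v i) + C (u i) * X

lemma step_deg (p : A[X]) (d m : ℕ) (F : Fin 2 → A[X]) (a : Fin 2 → A)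
    (hF : ∀ i, (F i).natDegree ≤ m ∧ (F i).coeff m = a i) :
    (∑ i ∈ range (d + 1), algebraMap A A[X] (p.coeff i) * F 0 ^ i * F 1 ^ (d - i)).natDegree ≤
      d * m ∧
    (∑ i ∈ range (d + 1), algebraMap A A[X] (p.coeff i) * F 0 ^ i * F 1 ^ (d - i)).coeff (d * m) =
      ∑ i ∈ range (d + 1), algebraMap A A (p.coeff i) * a 0 ^ i * a 1 ^ (d - i) := by
  have key : ∀ i ∈ range (d + 1),
      (algebraMap A A[X] (p.coeff i) * F 0 ^ i * F 1 ^ (d - i)).natDegree ≤ d * m ∧
      (algebraMap A A[X] (p.coeff i) * F 0 ^ i * F 1 ^ (d - i)).coeff (d * m) =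
        algebraMap A A (p.coeff i) * a 0 ^ i * a 1 ^ (d - i) := by
    intro i hi
    have hid : i ≤ d := by
      rw [Finset.mem_range] at hi
      omega
    have h0 : (F 0 ^ i).natDegree ≤ i * m := natDegree_pow_le_of_le i (hF 0).1
    have h1 : (F 1 ^ (d - i)).natDegree ≤ (d - i) * m := natDegree_pow_le_of_le _ (hF 1).1
    have hdm : d * m = i * m + (d - i) * m := by
      rw [← Nat.add_mul, Nat.add_sub_cancel' hid]
    have h2 : (algebraMap A A[X] (p.coeff i) * F 0 ^ i).natDegree ≤ i * m := by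
      rw [algebraMap_eq]
      exact (natDegree_C_mul_le _ _).trans h0
    constructor
    · rw [hdm]
      exact natDegree_mul_le.trans (add_le_add h2 h1)
    · rw [hdm, coeff_mul_add_eq_of_natDegree_le h2 h1, algebraMap_eq, coeff_C_mul,
        coeff_pow_of_natDegree_le (hF 0).1, coeff_pow_of_natDegree_le (hF 1).1, (hF 0).2, (hF 1).2]
      rfl
  constructor
  · exact natDegree_sum_le_of_forall_le _ _ fun i hi => (key i hi).1
  · rw [finsetSum_coeff]
    exact Finset.sum_congr rfl fun i hi => (key i hi).2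

lemma lin_deg (p q : A[X]) (d k : ℕ) (v u : Fin 2 → A) (i : Fin 2) :
    (((lift p q d)^[k] (lin v u)) i).natDegree ≤ d ^ k ∧
    (((lift p q d)^[k] (lin v u)) i).coeff (d ^ k) = ((lift p q d)^[k] u) i := by
  induction k generalizing i with
  | zero =>
    rw [pow_zero]
    show (C (v i) + C (u i) * X).natDegree ≤ 1 ∧ (C (v i) + C (u i) * X).coeff 1 = u i
    constructor
    · rw [add_comm]
      exact natDegree_linear_le
    · rw [coeff_add, coeff_C_succ, coeff_C_mul, coeff_X_one, zero_add, mul_one]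
  | succ k ih =>
    rw [Function.iterate_succ_apply', Function.iterate_succ_apply', pow_succ, mul_comm (d ^ k)]
    fin_cases i
    · exact step_deg p d (d ^ k) _ _ ih
    · exact step_deg q d (d ^ k) _ _ ih

/-- the periodic form on the line -/
noncomputable def cc (p q : A[X]) (d k : ℕ) (v u : Fin 2 → A) : A[X] :=
  lin v u 1 * ((lift p q d)^[k] (lin v u)) 0 - lin v u 0 * ((lift p q d)^[k] (lin v u)) 1

lemma cc_deg (p q : A[X]) (d k : ℕ) (v u : Fin 2 → A) :
    (cc p q d k v u).natDegree ≤ d ^ k + 1 ∧ (cc p q d k v u).coeff (d ^ k + 1) =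
      u 1 * ((lift p q d)^[k] u) 0 - u 0 * ((lift p q d)^[k] u) 1 := by
  have h := lin_deg p q d k v u
  have h0 : ∀ i, (lin v u i).natDegree ≤ 1 := fun i => by
    unfold lin
    rw [add_comm]
    exact natDegree_linear_le
  have h1 : ∀ i, (lin v u i).coeff 1 = u i := fun i => by
    unfold lin
    rw [coeff_add, coeff_C_succ, coeff_C_mul, coeff_X_one, zero_add, mul_one]
  have hm : ∀ i j, (lin v u i * ((lift p q d)^[k] (lin v u)) j).natDegree ≤ d ^ k + 1 := by
    intro i j
    rw [add_comm (d ^ k)]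
    exact natDegree_mul_le.trans (add_le_add (h0 i) (h j).1)
  have hc : ∀ i j, (lin v u i * ((lift p q d)^[k] (lin v u)) j).coeff (d ^ k + 1) =
      u i * ((lift p q d)^[k] u) j := by
    intro i j
    rw [add_comm (d ^ k), coeff_mul_add_eq_of_natDegree_le (h0 i) (h j).1, h1, (h j).2]
  unfold cc
  constructor
  · exact (natDegree_sub_le_of_le (hm 1 0) (hm 0 1)).trans (max_self _).le
  · rw [coeff_sub, hc, hc]

lemma cc_map (φ : A →+* A') (p q : A[X]) (d k : ℕ) (v u : Fin 2 → A) :
    (cc p q d k v u).map φ = cc (p.map φ) (q.map φ) d k (fun i => φ (v i)) (fun i => φ (u i)) := by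
  have h := lift_iter φ (mapRingHom φ) (fun a => by
    rw [algebraMap_eq, algebraMap_eq, coe_mapRingHom, map_C]) p q d k (lin v u)
  have hl : (fun j => mapRingHom φ (lin v u j)) = lin (fun i => φ (v i)) (fun i => φ (u i)) := by
    funext j
    unfold lin
    simp
  rw [hl] at h
  have h0 := congrFun h 0
  have h1 := congrFun h 1
  have l0 := congrFun hl 0
  have l1 := congrFun hl 1
  simp only [coe_mapRingHom] at h0 h1 l0 l1
  unfold cc
  rw [Polynomial.map_sub, Polynomial.map_mul, Polynomial.map_mul, h0, h1, l0, l1]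

end

lemma ln_eq {K : Type*} [Field K] (p q : K[X]) (d k : ℕ) (v u : Fin 2 → K) :
    ln v u (per p q d k) = cc p q d k v u := by
  have h := lift_iter (RingHom.id K) (MvPolynomial.aeval (R := K) (lin v u)).toRingHom
    (fun a => by simp) p q d k MvPolynomial.X
  rw [Polynomial.map_id, Polynomial.map_id] at h
  have hl : (fun j => (MvPolynomial.aeval (R := K) (lin v u)).toRingHom (MvPolynomial.X j)) =
      lin v u := by
    funext j
    simp
  rw [hl] at h
  have h0 := congrFun h 0
  have h1 := congrFun h 1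
  unfold ln per cc
  rw [← h0, ← h1]
  show MvPolynomial.aeval (lin v u) _ = _
  rw [map_sub, map_mul, map_mul, MvPolynomial.aeval_X, MvPolynomial.aeval_X]
  rfl

lemma eval_per {K : Type*} [Field K] (p q : K[X]) (d k : ℕ) (u : Fin 2 → K) :
    MvPolynomial.eval u (per p q d k) =
      u 1 * ((lift p q d)^[k] u) 0 - u 0 * ((lift p q d)^[k] u) 1 := by
  have h := lift_iter (RingHom.id K) (MvPolynomial.eval u)
    (fun a => by simp [MvPolynomial.algebraMap_eq]) p q d k MvPolynomial.X
  rw [Polynomial.map_id, Polynomial.map_id] at h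
  have hl : (fun j => MvPolynomial.eval u (MvPolynomial.X j)) = u := by
    funext j
    simp
  rw [hl] at h
  have h0 := congrFun h 0
  have h1 := congrFun h 1
  unfold per
  rw [map_sub, map_mul, map_mul, MvPolynomial.eval_X, MvPolynomial.eval_X, ← h0, ← h1]

lemma per_ne (hom : S_hom) {d : ℕ} (hd : 2 ≤ d) {p q : ℂ[X]} (hpq : IsCoprime p q)
    (hmax : max p.natDegree q.natDegree = d) {k : ℕ} (hk : 1 ≤ k) : per p q d k ≠ 0 := by
  intro h0
  have key : ∀ w : Fin 2 → ℂ,
      w 1 * ((lift p q d)^[k] w) 0 = w 0 * ((lift p q d)^[k] w) 1 := by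
    intro w
    have := eval_per p q d k w
    rw [h0, map_zero] at this
    linear_combination -this
  have hm : 2 ≤ d ^ k := by
    calc 2 ≤ d := hd
      _ = d ^ 1 := (pow_one d).symm
      _ ≤ d ^ k := Nat.pow_le_pow_right (by omega) hk
  set v0 : Fin 2 → ℂ := ![0, 1] with hv0
  set u0 : Fin 2 → ℂ := ![1, 0] with hu0
  set F := (lift p q d)^[k] (lin v0 u0) with hF
  have hev : ∀ (x : ℂ) (i : Fin 2), (F i).eval x = ((lift p q d)^[k] ![x, 1]) i := by
    intro x i
    have h := lift_iter (RingHom.id ℂ) (evalRingHom x) (fun a => by simp) p q d k (lin v0 u0)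
    rw [Polynomial.map_id, Polynomial.map_id] at h
    have hl : (fun j => evalRingHom x (lin v0 u0 j)) = ![x, 1] := by
      funext j
      fin_cases j <;> simp [lin, hv0, hu0]
    rw [hl] at h
    exact congrFun h i
  have hroot : ∀ x : ℂ, (F 1).eval x ≠ 0 := by
    intro x hx
    have h1 := key ![x, 1]
    rw [hev] at hx
    rw [hx] at h1
    have h2 : ((lift p q d)^[k] ![x, 1]) 0 = 0 := by simpa using h1
    have hne : (![x, 1] : Fin 2 → ℂ) ≠ 0 := fun h => by
      have := congrFun h 1
      simp at this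
    refine (hom ℂ d p q hpq hmax _ hne k).1 ?_
    funext i
    fin_cases i
    · exact h2
    · exact hx
  have hdeg : (F 1).natDegree = 0 := by
    by_contra hne
    obtain ⟨x, hx⟩ := IsAlgClosed.exists_root (F 1) (fun h => hne (natDegree_eq_of_degree_eq_some h))
    exact hroot x hx
  have hF0 : F 0 = X * F 1 := by
    refine Polynomial.funext fun x => ?_
    have h1 := key ![x, 1]
    rw [eval_mul, eval_X, hev, hev]
    simpa using h1
  have hl := lin_deg p q d k v0 u0
  have e1 : ((lift p q d)^[k] u0) 1 = 0 := by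
    rw [← (hl 1).2]
    exact coeff_eq_zero_of_natDegree_lt (by
      show (F 1).natDegree < d ^ k
      omega)
  have e0 : ((lift p q d)^[k] u0) 0 = 0 := by
    rw [← (hl 0).2]
    refine coeff_eq_zero_of_natDegree_lt ?_
    show (F 0).natDegree < d ^ k
    rw [hF0]
    have h3 := natDegree_mul_le (p := (X : ℂ[X])) (q := F 1)
    rw [natDegree_X, hdeg] at h3
    omega
  have hne : u0 ≠ 0 := fun h => by
    have := congrFun h 0
    simp [hu0] at this
  refine (hom ℂ d p q hpq hmax _ hne k).1 ?_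
  funext i
  fin_cases i
  · exact e0
  · exact e1

/-- division with powers of the leading coefficient -/
lemma pseudo {R : Type*} [CommRing R] [IsDomain R] (B : R[X]) (hB : B ≠ 0) :
    ∀ (N : ℕ) (A : R[X]), A.degree < (N : WithBot ℕ) →
      ∃ (e : ℕ) (Q r : R[X]), C B.leadingCoeff ^ e * A = Q * B + r ∧ r.degree < B.degree := by
  intro N
  induction N with
  | zero =>
    intro A hA
    have h0 : A = 0 := by
      rw [← degree_eq_bot]
      exact Nat.WithBot.lt_zero_iff.1 hA
    exact ⟨0, 0, 0, by rw [h0]; simp, by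
      rw [degree_zero]
      exact bot_lt_iff_ne_bot.2 (degree_ne_bot.2 hB)⟩
  | succ N ih =>
    intro A hA
    by_cases hlt : A.degree < B.degree
    · exact ⟨0, 0, A, by simp, hlt⟩
    rw [not_lt] at hlt
    have hA0 : A ≠ 0 := by
      rintro rfl
      rw [degree_zero, le_bot_iff, degree_eq_bot] at hlt
      exact hB hlt
    have hb : B.leadingCoeff ≠ 0 := leadingCoeff_ne_zero.2 hB
    have ha : A.leadingCoeff ≠ 0 := leadingCoeff_ne_zero.2 hA0
    have hnat : B.natDegree ≤ A.natDegree := natDegree_le_natDegree hlt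
    set k := A.natDegree - B.natDegree with hk
    have hd1 : (C B.leadingCoeff * A).degree = A.degree := degree_C_mul hb
    have hd2 : (C A.leadingCoeff * X ^ k * B).degree = A.degree := by
      rw [mul_assoc, degree_C_mul ha, degree_mul, degree_X_pow, degree_eq_natDegree hB,
        degree_eq_natDegree hA0, ← Nat.cast_add, hk, Nat.sub_add_cancel hnat]
    have hA' : (C B.leadingCoeff * A - C A.leadingCoeff * X ^ k * B).degree < A.degree := by
      rw [← hd1]
      refine degree_sub_lt (hd1.trans hd2.symm) ?_ ?_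
      · exact mul_ne_zero (C_ne_zero.2 hb) hA0
      · rw [leadingCoeff_mul, leadingCoeff_mul, leadingCoeff_mul, leadingCoeff_C, leadingCoeff_C,
          leadingCoeff_X_pow]
        ring
    have hA'' : (C B.leadingCoeff * A - C A.leadingCoeff * X ^ k * B).degree < (N : WithBot ℕ) := by
      refine lt_of_lt_of_le hA' ?_
      rw [degree_eq_natDegree hA0] at hA ⊢
      have h1 : A.natDegree < N + 1 := by exact_mod_cast hA
      exact_mod_cast Nat.lt_succ_iff.1 h1
    obtain ⟨e, Q, r, h1, h2⟩ := ih _ hA''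
    refine ⟨e + 1, Q + C B.leadingCoeff ^ e * (C A.leadingCoeff * X ^ k), r, ?_, h2⟩
    linear_combination h1

lemma norm_prod_ge {δ : ℝ} (hδ : 0 < δ) (m : Multiset ℂ) (h : ∀ r ∈ m, δ ≤ ‖r‖) :
    δ ^ (Multiset.card m) ≤ ‖(m.map (fun r => -r)).prod‖ := by
  induction m using Multiset.induction_on with
  | empty => simp
  | cons a m ih =>
    rw [Multiset.card_cons, Multiset.map_cons, Multiset.prod_cons, norm_mul, norm_neg, pow_succ,
      mul_comm]
    exact mul_le_mul (h a (Multiset.mem_cons_self _ _))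
      (ih fun r hr => h r (Multiset.mem_cons_of_mem hr)) (by positivity) (norm_nonneg _)

lemma small_root (f : ℂ[X]) (δ : ℝ) (hδ : 0 < δ)
    (hf : ‖f.eval 0‖ < ‖f.leadingCoeff‖ * δ ^ f.natDegree) : ∃ s, f.eval s = 0 ∧ ‖s‖ < δ := by
  by_contra hcon
  push Not at hcon
  have hs : f.Splits := IsAlgClosed.splits f
  have h1 := hs.eq_prod_roots
  have h2 : f.eval 0 = f.leadingCoeff * (f.roots.map (fun r => -r)).prod := by
    conv_lhs => rw [h1]
    rw [eval_mul, eval_C, eval_multiset_prod, Multiset.map_map]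
    congr 3
    funext r
    simp
  have h3 := norm_prod_ge hδ f.roots fun r hr => hcon r (isRoot_of_mem_roots hr)
  rw [← hs.natDegree_eq_card_roots] at h3
  rw [h2, norm_mul] at hf
  have h4 := mul_le_mul_of_nonneg_left h3 (norm_nonneg f.leadingCoeff)
  linarith

lemma coeff_bdd (f : ℂ[X]) : ∃ M : ℝ, ∀ i, ‖f.coeff i‖ ≤ M := by
  refine ⟨∑ i ∈ f.support, ‖f.coeff i‖, fun i => ?_⟩
  by_cases hi : i ∈ f.support
  · exact Finset.single_le_sum (f := fun i => ‖f.coeff i‖) (fun _ _ => norm_nonneg _) hi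
  · rw [notMem_support_iff.1 hi, norm_zero]
    exact Finset.sum_nonneg fun _ _ => norm_nonneg _

theorem t_dns (hom : S_hom) (sqf : S_sqf) (mob : S_mob) : S_dns := by
  classical
  intro d n hd hn p q v hpq hmax hv hformal ε hε
  obtain ⟨g, hg, hg0⟩ := hformal
  have hdpos : ∀ k ∈ n.divisors, 1 ≤ k := fun k hk => Nat.pos_of_mem_divisors hk
  -- the direction
  obtain ⟨u, hvu, hu1, hu2⟩ : ∃ u : Fin 2 → ℂ, v 0 * u 1 - v 1 * u 0 ≠ 0 ∧
      (∀ k ∈ n.divisors, MvPolynomial.eval u (per (X ^ d : ℂ[X]) 1 d k) ≠ 0) ∧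
      ∀ k ∈ n.divisors, MvPolynomial.eval u (per p q d k) ≠ 0 := by
    set f0 : MvPolynomial (Fin 2) ℂ := MvPolynomial.C (v 0) * MvPolynomial.X 1 -
      MvPolynomial.C (v 1) * MvPolynomial.X 0 with hf0
    have n0 : f0 ≠ 0 := by
      intro h
      apply hv
      have h1 := congrArg (MvPolynomial.eval ![(0 : ℂ), 1]) h
      have h2 := congrArg (MvPolynomial.eval ![(1 : ℂ), 0]) h
      simp [hf0] at h1 h2
      funext i
      fin_cases i
      · exact h1
      · exact h2
    have n1 : ∏ k ∈ n.divisors, per (X ^ d : ℂ[X]) 1 d k ≠ 0 :=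
      Finset.prod_ne_zero_iff.2 fun k hk =>
        per_ne hom hd isCoprime_one_right (by simp) (hdpos k hk)
    have n2 : ∏ k ∈ n.divisors, per p q d k ≠ 0 :=
      Finset.prod_ne_zero_iff.2 fun k hk => per_ne hom hd hpq hmax (hdpos k hk)
    have n3 := mul_ne_zero (mul_ne_zero n0 n1) n2
    obtain ⟨u, hu⟩ : ∃ u : Fin 2 → ℂ, MvPolynomial.eval u (f0 *
        (∏ k ∈ n.divisors, per (X ^ d : ℂ[X]) 1 d k) * ∏ k ∈ n.divisors, per p q d k) ≠ 0 := by
      by_contra hcon
      push Not at hcon
      exact n3 (MvPolynomial.funext fun u => by rw [hcon u, map_zero])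
    rw [map_mul, map_mul, map_prod, map_prod] at hu
    have hu2 := right_ne_zero_of_mul hu
    have hu1 := right_ne_zero_of_mul (left_ne_zero_of_mul hu)
    have hu0 := left_ne_zero_of_mul (left_ne_zero_of_mul hu)
    refine ⟨u, ?_, fun k hk => Finset.prod_ne_zero_iff.1 hu1 k hk,
      fun k hk => Finset.prod_ne_zero_iff.1 hu2 k hk⟩
    simpa [hf0] using hu0
  obtain ⟨T, hT⟩ := sqf d n hd hn p q hmax v u hvu hu1
  -- the family
  set pT : ℂ[X][X] := C (1 - X) * p.map C + C X * X ^ d with hpT
  set qT : ℂ[X][X] := C (1 - X) * q.map C + C X with hqT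
  set cT : ℕ → ℂ[X][X] := fun k => cc pT qT d k (fun i => C (v i)) (fun i => C (u i)) with hcT
  have hmapC : ∀ (t : ℂ) (f : ℂ[X]), (f.map C).map (evalRingHom t) = f := by
    intro t f
    rw [Polynomial.map_map]
    have : (evalRingHom t).comp C = RingHom.id ℂ := by
      ext a
      simp
    rw [this, Polynomial.map_id]
  have hpm : ∀ t : ℂ, pT.map (evalRingHom t) = C (1 - t) * p + C t * X ^ d := by
    intro t
    rw [hpT, Polynomial.map_add, Polynomial.map_mul, Polynomial.map_mul, hmapC, map_C, map_C,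
      Polynomial.map_pow, map_X]
    simp
  have hqm : ∀ t : ℂ, qT.map (evalRingHom t) = C (1 - t) * q + C t := by
    intro t
    rw [hqT, Polynomial.map_add, Polynomial.map_mul, hmapC, map_C, map_C]
    simp
  have hcm : ∀ (t : ℂ) (k : ℕ), (cT k).map (evalRingHom t) =
      ln v u (per (C (1 - t) * p + C t * X ^ d) (C (1 - t) * q + C t) d k) := by
    intro t k
    rw [ln_eq, hcT, cc_map, hpm, hqm]
    congr 1
    · funext i
      simp
    · funext i
      simp
  have hp0 : C (1 - (0 : ℂ)) * p + C (0 : ℂ) * X ^ d = p := by simp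
  have hq0 : C (1 - (0 : ℂ)) * q + C (0 : ℂ) = q := by simp
  have hlead : ∀ k ∈ n.divisors, (cT k).leadingCoeff.eval 0 ≠ 0 := by
    intro k hk
    have h1 : ((cT k).coeff (d ^ k + 1)).eval 0 = MvPolynomial.eval u (per p q d k) := by
      have h2 := congrArg (fun f : ℂ[X] => f.coeff (d ^ k + 1)) (hcm 0 k)
      simp only [coeff_map] at h2
      rw [hp0, hq0, ln_eq, (cc_deg p q d k v u).2, ← eval_per] at h2
      exact h2
    have h3 : ((cT k).coeff (d ^ k + 1)).eval 0 ≠ 0 := by
      rw [h1]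
      exact hu2 k hk
    have h4 : (cT k).natDegree = d ^ k + 1 := by
      refine le_antisymm (cc_deg _ _ _ _ _ _).1 (le_natDegree_of_ne_zero ?_)
      intro h
      rw [h] at h3
      simp at h3
    unfold leadingCoeff
    rw [h4]
    exact h3
  have hcne : ∀ k ∈ n.divisors, cT k ≠ 0 := by
    intro k hk h
    have := hlead k hk
    rw [h] at this
    simp at this
  set AT := ∏ k ∈ n.divisors with ArithmeticFunction.moebius (n / k) = 1, cT k with hAT
  set BT := ∏ k ∈ n.divisors with ArithmeticFunction.moebius (n / k) = -1, cT k with hBT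
  have hBT0 : BT ≠ 0 := Finset.prod_ne_zero_iff.2 fun k hk => hcne k (Finset.mem_filter.1 hk).1
  set a := AT.leadingCoeff with ha
  set b := BT.leadingCoeff with hb
  have ha0 : a.eval 0 ≠ 0 := by
    rw [ha, hAT, leadingCoeff_prod, eval_prod]
    exact Finset.prod_ne_zero_iff.2 fun k hk => hlead k (Finset.mem_filter.1 hk).1
  have hb0 : b.eval 0 ≠ 0 := by
    rw [hb, hBT, leadingCoeff_prod, eval_prod]
    exact Finset.prod_ne_zero_iff.2 fun k hk => hlead k (Finset.mem_filter.1 hk).1
  have hbne : b ≠ 0 := by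
    rintro h
    rw [h] at hb0
    simp at hb0
  obtain ⟨e, Q, r, hQ, hr⟩ := pseudo BT hBT0 (AT.natDegree + 1) AT (by
    refine lt_of_le_of_lt degree_le_natDegree ?_
    exact_mod_cast Nat.lt_succ_self _)
  -- good parameters
  have hgood : ∀ t : ℂ, t ∉ T → b.eval t ≠ 0 →
      r.map (evalRingHom t) = 0 ∧ ∃ G : ℂ[X], Q.map (evalRingHom t) = C (b.eval t) ^ e * G ∧
        ∀ s : ℂ, G.eval s = 0 → Function.minimalPeriod (ratP1 (C (1 - t) * p + C t * X ^ d)
          (C (1 - t) * q + C t) d) (pt fun i => v i + s * u i) = n := by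
    intro t ht hbt
    obtain ⟨c1, c2, c3⟩ := hT t ht
    obtain ⟨G, hG, hGr⟩ := mob d n hd hn _ _ c1 c2 v u hvu c3
    have hAm : AT.map (evalRingHom t) = ∏ k ∈ n.divisors with
        ArithmeticFunction.moebius (n / k) = 1,
        ln v u (per (C (1 - t) * p + C t * X ^ d) (C (1 - t) * q + C t) d k) := by
      rw [hAT, Polynomial.map_prod]
      exact Finset.prod_congr rfl fun k _ => hcm t k
    have hBm : BT.map (evalRingHom t) = ∏ k ∈ n.divisors with
        ArithmeticFunction.moebius (n / k) = -1,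
        ln v u (per (C (1 - t) * p + C t * X ^ d) (C (1 - t) * q + C t) d k) := by
      rw [hBT, Polynomial.map_prod]
      exact Finset.prod_congr rfl fun k _ => hcm t k
    rw [← hAm, ← hBm] at hG
    have h1 := congrArg (fun f : ℂ[X][X] => f.map (evalRingHom t)) hQ
    simp only [Polynomial.map_mul, Polynomial.map_add, Polynomial.map_pow, map_C] at h1
    have hbe : evalRingHom t BT.leadingCoeff = b.eval t := rfl
    rw [hbe, ← hG] at h1
    have hBdeg : (BT.map (evalRingHom t)).degree = BT.degree :=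
      degree_map_eq_of_leadingCoeff_ne_zero _ hbt
    have h2 : r.map (evalRingHom t) =
        (C (b.eval t) ^ e * G - Q.map (evalRingHom t)) * BT.map (evalRingHom t) := by
      linear_combination -h1
    have h3 : C (b.eval t) ^ e * G - Q.map (evalRingHom t) = 0 := by
      by_contra hne
      have h4 : (r.map (evalRingHom t)).degree < BT.degree :=
        lt_of_le_of_lt (degree_map_le) hr
      rw [h2, degree_mul, hBdeg] at h4
      have h5 : (0 : WithBot ℕ) ≤ (C (b.eval t) ^ e * G - Q.map (evalRingHom t)).degree :=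
        zero_le_degree_iff.2 hne
      have h6 := add_le_add_left h5 BT.degree
      rw [zero_add] at h6
      exact absurd h4 (not_lt.2 h6)
    refine ⟨by rw [h2, h3, zero_mul], G, (sub_eq_zero.1 h3).symm, hGr⟩
  have hr0 : r = 0 := by
    ext1 i
    rw [coeff_zero]
    by_contra hne
    have hfin : ({t : ℂ | (r.coeff i * b).IsRoot t}).Finite :=
      (r.coeff i * b).finite_setOf_isRoot (mul_ne_zero hne hbne)
    have hinf : (Set.univ : Set ℂ).Infinite := Set.infinite_univ
    apply hinf
    refine (hfin.union T.finite_toSet).subset fun t _ => ?_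
    by_cases ht : t ∈ T
    · exact Or.inr ht
    · left
      show (r.coeff i * b).eval t = 0
      rw [eval_mul]
      by_cases hbt : b.eval t = 0
      · rw [hbt, mul_zero]
      · have h1 := (hgood t ht hbt).1
        have h2 := congrArg (fun f : ℂ[X] => f.coeff i) h1
        simp only [coeff_map, coeff_zero] at h2
        have h3 : (r.coeff i).eval t = 0 := h2
        rw [h3, zero_mul]
  rw [hr0, add_zero] at hQ
  -- at the parameter zero
  have hA0 : AT.map (evalRingHom 0) = ln v u g * BT.map (evalRingHom 0) := by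
    have e1 : AT.map (evalRingHom 0) = ln v u (∏ k ∈ n.divisors with
        ArithmeticFunction.moebius (n / k) = 1, per p q d k) := by
      rw [hAT, Polynomial.map_prod]
      unfold ln
      rw [map_prod]
      refine Finset.prod_congr rfl fun k _ => ?_
      rw [hcm, hp0, hq0]
      rfl
    have e2 : BT.map (evalRingHom 0) = ln v u (∏ k ∈ n.divisors with
        ArithmeticFunction.moebius (n / k) = -1, per p q d k) := by
      rw [hBT, Polynomial.map_prod]
      unfold ln
      rw [map_prod]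
      refine Finset.prod_congr rfl fun k _ => ?_
      rw [hcm, hp0, hq0]
      rfl
    rw [e1, e2, ← hg]
    unfold ln
    rw [map_mul]
  have hB0 : BT.map (evalRingHom 0) ≠ 0 := by
    intro h
    have := degree_map_eq_of_leadingCoeff_ne_zero (p := BT) (evalRingHom (0 : ℂ)) hb0
    rw [h, degree_zero] at this
    exact hBT0 (degree_eq_bot.1 this.symm)
  have hQ0 : (Q.coeff 0).eval 0 = 0 := by
    have h1 := congrArg (fun f : ℂ[X][X] => f.map (evalRingHom 0)) hQ
    simp only [Polynomial.map_mul, Polynomial.map_pow, map_C] at h1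
    rw [hA0, ← mul_assoc] at h1
    have h2 := mul_right_cancel₀ hB0 h1
    have h3 := congrArg (fun f : ℂ[X] => f.coeff 0) h2
    simp only [coeff_map] at h3
    have h4 : (Q.coeff 0).eval 0 = evalRingHom 0 (Q.coeff 0) := rfl
    rw [h4, ← h3, coeff_zero_eq_eval_zero, eval_mul, eval_ln]
    have h5 : (fun i => v i + 0 * u i) = v := by
      funext i
      ring
    rw [h5, hg0, mul_zero]
  have hlq : Q.leadingCoeff.eval 0 ≠ 0 := by
    have h1 := congrArg leadingCoeff hQ
    rw [leadingCoeff_mul, leadingCoeff_mul, leadingCoeff_pow, leadingCoeff_C] at h1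
    have h2 := congrArg (fun f : ℂ[X] => f.eval 0) h1
    simp only [eval_mul, eval_pow] at h2
    intro h3
    rw [h3, zero_mul] at h2
    exact mul_ne_zero (pow_ne_zero _ hb0) ha0 h2
  -- the size of the root
  set δ : ℝ := ε / (1 + ‖u 0‖ + ‖u 1‖) with hδ
  have hden : 0 < 1 + ‖u 0‖ + ‖u 1‖ := by positivity
  have hδ0 : 0 < δ := by positivity
  have hδu : ∀ i, δ * ‖u i‖ < ε := by
    intro i
    have h1 : ‖u i‖ < 1 + ‖u 0‖ + ‖u 1‖ := by
      fin_cases i
      · show ‖u 0‖ < _
        linarith [norm_nonneg (u 1)]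
      · show ‖u 1‖ < _
        linarith [norm_nonneg (u 0)]
    rw [hδ, div_mul_eq_mul_div, div_lt_iff₀ hden]
    exact mul_lt_mul_of_pos_left h1 hε
  obtain ⟨M1, hM1⟩ := coeff_bdd (X ^ d - p)
  obtain ⟨M2, hM2⟩ := coeff_bdd (1 - q)
  have c1 : Continuous fun t : ℂ => (Q.coeff 0).eval t := (Q.coeff 0).continuous
  have c2 : Continuous fun t : ℂ => Q.leadingCoeff.eval t := Q.leadingCoeff.continuous
  have c3 : Continuous fun t : ℂ => b.eval t := b.continuous
  have ev1 : ∀ᶠ t in 𝓝 (0 : ℂ), ‖(Q.coeff 0).eval t‖ <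
      ‖Q.leadingCoeff.eval t‖ * δ ^ Q.natDegree := by
    refine ContinuousAt.eventually_lt c1.norm.continuousAt
      (c2.norm.mul continuous_const).continuousAt ?_
    rw [hQ0, norm_zero]
    have := norm_pos_iff.2 hlq
    positivity
  have ev2 : ∀ᶠ t in 𝓝 (0 : ℂ), b.eval t ≠ 0 := c3.continuousAt.eventually_ne hb0
  have ev3 : ∀ᶠ t in 𝓝 (0 : ℂ), Q.leadingCoeff.eval t ≠ 0 := c2.continuousAt.eventually_ne hlq
  have ev4 : ∀ᶠ t in 𝓝 (0 : ℂ), ‖t‖ * (|M1| + |M2| + 1) < ε := by
    refine ContinuousAt.eventually_lt (continuous_norm.mul continuous_const).continuousAt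
      continuousAt_const ?_
    rw [norm_zero, zero_mul]
    exact hε
  have ev5 : ∀ᶠ t in 𝓝[≠] (0 : ℂ), t ∉ T := by
    have h1 : IsClosed ((T.erase 0 : Finset ℂ) : Set ℂ) := (T.erase 0).finite_toSet.isClosed
    have h2 : ∀ᶠ t in 𝓝 (0 : ℂ), t ∉ ((T.erase 0 : Finset ℂ) : Set ℂ) :=
      h1.isOpen_compl.mem_nhds (by simp)
    filter_upwards [h2.filter_mono nhdsWithin_le_nhds, self_mem_nhdsWithin] with t h3 h4 h5
    exact h3 (Finset.mem_coe.2 (Finset.mem_erase.2 ⟨h4, h5⟩))
  obtain ⟨t, ht1, ht2, ht3, ht4, ht5⟩ := ((ev1.filter_mono nhdsWithin_le_nhds).and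
    ((ev2.filter_mono nhdsWithin_le_nhds).and ((ev3.filter_mono nhdsWithin_le_nhds).and
    ((ev4.filter_mono nhdsWithin_le_nhds).and ev5)))).exists
  obtain ⟨d1, d2, -⟩ := hT t ht5
  obtain ⟨-, G, hG, hGr⟩ := hgood t ht5 ht2
  obtain ⟨s, hs, hsδ⟩ := small_root (Q.map (evalRingHom t)) δ hδ0 (by
    rw [leadingCoeff_map_of_leadingCoeff_ne_zero _ ht3,
      natDegree_map_of_leadingCoeff_ne_zero _ ht3, ← coeff_zero_eq_eval_zero, coeff_map]
    exact ht1)
  have hGs : G.eval s = 0 := by
    rw [hG, eval_mul, eval_pow, eval_C] at hs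
    exact (mul_eq_zero.1 hs).resolve_left (pow_ne_zero _ ht2)
  refine ⟨C (1 - t) * p + C t * X ^ d, C (1 - t) * q + C t, fun i => v i + s * u i, d1, d2,
    line_ne hvu s, hGr s hGs, fun i => ⟨?_, ?_⟩, fun i => ?_⟩
  · have e1 : (C (1 - t) * p + C t * X ^ d).coeff i - p.coeff i = t * (X ^ d - p).coeff i := by
      rw [coeff_add, coeff_C_mul, coeff_C_mul, coeff_sub]
      ring
    rw [e1, norm_mul]
    refine lt_of_le_of_lt (mul_le_mul_of_nonneg_left ((hM1 i).trans ?_) (norm_nonneg t)) ht4
    have := le_abs_self M1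
    have := abs_nonneg M2
    linarith
  · have e1 : (C (1 - t) * q + C t).coeff i - q.coeff i = t * (1 - q).coeff i := by
      have e2 : (C t : ℂ[X]) = C t * 1 := by rw [mul_one]
      rw [e2, coeff_add, coeff_C_mul, coeff_C_mul, coeff_sub]
      ring
    rw [e1, norm_mul]
    refine lt_of_le_of_lt (mul_le_mul_of_nonneg_left ((hM2 i).trans ?_) (norm_nonneg t)) ht4
    have := le_abs_self M2
    have := abs_nonneg M1
    linarith
  · have e1 : v i + s * u i - v i = s * u i := by ring
    rw [e1, norm_mul]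
    exact lt_of_le_of_lt (mul_le_mul_of_nonneg_right hsδ.le (norm_nonneg _)) (hδu i)

end Pool.Agent.Q203.GT
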