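import Pool.Agent.Q41.GT.Stm5

/-!
# The dynatomic polynomial of a map with simple periodic points
-/

set_option autoImplicit false
set_option linter.unusedVariables false

namespace Pool.Agent.Q203.GT

open Finset Polynomial
open Pool.Agent.Q41.GT
open Pool.Agent.W277.UH (ratP1)

section
variable {A A' B B' : Type*} [CommRing A] [CommRing A'] [CommRing B] [CommRing B'] [Algebra A B]
  [Algebra A' B']

lemma lift_nat (φ : A →+* A') (ψ : B →+* B')
    (h : ∀ a, ψ (algebraMap A B a) = algebraMap A' B' (φ a))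
    (p q : A[X]) (d : ℕ) (w : Fin 2 → B) (i : Fin 2) :
    ψ (lift p q d w i) = lift (p.map φ) (q.map φ) d (fun j => ψ (w j)) i := by
  fin_cases i
  · simp [lift, map_sum, h]
  · simp [lift, map_sum, h]

lemma lift_iter (φ : A →+* A') (ψ : B →+* B')
    (h : ∀ a, ψ (algebraMap A B a) = algebraMap A' B' (φ a))
    (p q : A[X]) (d k : ℕ) (w : Fin 2 → B) :
    (fun i => ψ (((lift p q d)^[k] w) i)) =
      (lift (p.map φ) (q.map φ) d)^[k] (fun j => ψ (w j)) := by
  induction k with
  | zero => rfl
  | succ k ih =>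
    rw [Function.iterate_succ_apply', Function.iterate_succ_apply', ← ih]
    funext i
    exact lift_nat φ ψ h p q d _ i

end

lemma eval_ln {K : Type*} [Field K] (v u : Fin 2 → K) (g : MvPolynomial (Fin 2) K) (s : K) :
    (ln v u g).eval s = MvPolynomial.eval (fun i => v i + s * u i) g := by
  unfold ln
  induction g using MvPolynomial.induction_on with
  | C a => simp
  | add f g hf hg => rw [map_add, eval_add, hf, hg, map_add]
  | mul_X f i hf =>
    rw [map_mul, eval_mul, hf, map_mul, MvPolynomial.aeval_X, MvPolynomial.eval_X]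
    congr 1
    simp
    ring

lemma line_ne {K : Type*} [Field K] {v u : Fin 2 → K} (h : v 0 * u 1 - v 1 * u 0 ≠ 0) (s : K) :
    (fun i => v i + s * u i) ≠ 0 := by
  intro h0
  apply h
  have h1 := congrFun h0 0
  have h2 := congrFun h0 1
  simp only [Pi.zero_apply] at h1 h2
  linear_combination u 1 * h1 - u 0 * h2

lemma rm_prod {ι : Type*} (S : Finset ι) (c : ι → ℂ[X]) (hc : ∀ k ∈ S, c k ≠ 0) (s : ℂ) :
    (∏ k ∈ S, c k).rootMultiplicity s = ∑ k ∈ S, (c k).rootMultiplicity s := by
  classical
  induction S using Finset.induction_on with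
  | empty => simp
  | insert a S ha ih =>
    have h1 : ∏ k ∈ S, c k ≠ 0 :=
      Finset.prod_ne_zero_iff.2 fun k hk => hc k (Finset.mem_insert_of_mem hk)
    rw [Finset.prod_insert ha, Finset.sum_insert ha,
      rootMultiplicity_mul (mul_ne_zero (hc a (Finset.mem_insert_self _ _)) h1),
      ih fun k hk => hc k (Finset.mem_insert_of_mem hk)]

lemma sum_moeb (N : ℕ) (hN : N ≠ 0) :
    ∑ j ∈ N.divisors, ArithmeticFunction.moebius j = if N = 1 then 1 else 0 := by
  have h1 := congrArg (fun f : ArithmeticFunction ℤ => f N)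
    ArithmeticFunction.moebius_mul_coe_zeta
  simp only [ArithmeticFunction.coe_mul_zeta_apply] at h1
  rw [h1, ArithmeticFunction.one_apply]

/-- the sum over the multiples of `m` -/
lemma sum_moeb_dvd {n : ℕ} (hn : 1 ≤ n) (m : ℕ) :
    ∑ k ∈ n.divisors, (if m ∣ k then ArithmeticFunction.moebius (n / k) else 0) =
      if m = n then 1 else 0 := by
  by_cases hm : m ∣ n
  swap
  · have hmn : m ≠ n := by
      rintro rfl
      exact hm dvd_rfl
    rw [if_neg hmn]
    refine Finset.sum_eq_zero fun k hk => ?_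
    rw [if_neg fun h => hm (h.trans (Nat.dvd_of_mem_divisors hk))]
  obtain ⟨N, hN⟩ := hm
  have hm0 : 0 < m := by
    rcases Nat.eq_zero_or_pos m with h | h
    · rw [h, zero_mul] at hN
      omega
    · exact h
  have hN0 : N ≠ 0 := by
    rintro rfl
    rw [mul_zero] at hN
    omega
  have h1 : ∑ k ∈ n.divisors, (if m ∣ k then ArithmeticFunction.moebius (n / k) else 0) =
      ∑ k ∈ n.divisors, (if k ∣ N then ArithmeticFunction.moebius k else 0) := by
    rw [← Nat.sum_div_divisors n (fun k => if k ∣ N then ArithmeticFunction.moebius k else 0)]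
    refine Finset.sum_congr rfl fun k hk => ?_
    have hkn := Nat.dvd_of_mem_divisors hk
    obtain ⟨l, hl⟩ := hkn
    have hk0 : 0 < k := Nat.pos_of_mem_divisors hk
    have e1 : n / k = l := by rw [hl, Nat.mul_div_cancel_left _ hk0]
    rw [e1]
    have e2 : m ∣ k ↔ l ∣ N := by
      have hl0 : 0 < l := by
        rcases Nat.eq_zero_or_pos l with h | h
        · rw [h, mul_zero] at hl
          omega
        · exact h
      constructor
      · rintro ⟨a, ha⟩
        refine ⟨a, ?_⟩
        apply Nat.eq_of_mul_eq_mul_left hm0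
        rw [← hN, hl, ha]
        ring
      · rintro ⟨a, ha⟩
        refine ⟨a, ?_⟩
        apply Nat.eq_of_mul_eq_mul_right hl0
        rw [← hl, hN, ha]
        ring
    simp only [e2]
  rw [h1, ← Finset.sum_filter]
  have h2 : n.divisors.filter (fun k => k ∣ N) = N.divisors := by
    ext k
    rw [Finset.mem_filter, Nat.mem_divisors, Nat.mem_divisors]
    constructor
    · rintro ⟨-, h⟩
      exact ⟨h, hN0⟩
    · rintro ⟨h, -⟩
      exact ⟨⟨h.trans ⟨m, by rw [hN, mul_comm]⟩, by omega⟩, h⟩
  rw [h2, sum_moeb N hN0]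
  by_cases h3 : N = 1
  · rw [if_pos h3, if_pos (by rw [hN, h3, mul_one])]
  · rw [if_neg h3, if_neg]
    intro h4
    apply h3
    apply Nat.eq_of_mul_eq_mul_left hm0
    rw [← hN, mul_one, h4]

theorem t_mob (hom : S_hom) : S_mob := by
  classical
  intro d n hd hn p q hpq hmax v u hvu hsep
  set c : ℕ → ℂ[X] := fun k => ln v u (per p q d k) with hc
  have hper : ∀ (k : ℕ) (s : ℂ), (c k).eval s = 0 ↔
      Function.minimalPeriod (ratP1 p q d) (pt fun i => v i + s * u i) ∣ k := by
    intro k s
    rw [hc, eval_ln, ← Function.isPeriodicPt_iff_minimalPeriod_dvd]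
    exact (hom ℂ d p q hpq hmax _ (line_ne hvu s) k).2.2
  have hne : ∀ k ∈ n.divisors, c k ≠ 0 := fun k hk => (hsep k hk).2.ne_zero
  have hrm : ∀ k ∈ n.divisors, ∀ s : ℂ, (((c k).rootMultiplicity s : ℕ) : ℤ) =
      if Function.minimalPeriod (ratP1 p q d) (pt fun i => v i + s * u i) ∣ k then 1 else 0 := by
    intro k hk s
    split_ifs with h
    · rw [← hper] at h
      have h1 := rootMultiplicity_le_one_of_separable (hsep k hk).2 s
      have h2 : 0 < (c k).rootMultiplicity s := (rootMultiplicity_pos (hne k hk)).2 h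
      have h3 : (c k).rootMultiplicity s = 1 := le_antisymm h1 h2
      rw [h3]
      rfl
    · rw [← hper] at h
      rw [rootMultiplicity_eq_zero h]
      rfl
  have hsub : ∀ (s : ℂ), (((∏ k ∈ n.divisors with ArithmeticFunction.moebius (n / k) = 1,
        c k).rootMultiplicity s : ℕ) : ℤ) =
      ((∏ k ∈ n.divisors with ArithmeticFunction.moebius (n / k) = -1,
        c k).rootMultiplicity s : ℕ) +
      if Function.minimalPeriod (ratP1 p q d) (pt fun i => v i + s * u i) = n then 1 else 0 := by
    intro s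
    rw [rm_prod _ _ (fun k hk => hne k (Finset.mem_filter.1 hk).1),
      rm_prod _ _ (fun k hk => hne k (Finset.mem_filter.1 hk).1), ← sum_moeb_dvd hn]
    push_cast
    rw [Finset.sum_filter, Finset.sum_filter, ← Finset.sum_add_distrib]
    refine Finset.sum_congr rfl fun k hk => ?_
    have h1 := hrm k hk s
    rw [h1]
    have h2 : ArithmeticFunction.moebius (n / k) = 1 ∨ ArithmeticFunction.moebius (n / k) = -1 ∨
        ArithmeticFunction.moebius (n / k) = 0 := by
      rcases ArithmeticFunction.moebius_eq_or (n / k) with h | h | h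
      · exact Or.inr (Or.inr h)
      · exact Or.inl h
      · exact Or.inr (Or.inl h)
    rcases h2 with h | h | h
    · rw [h]
      norm_num
    · rw [h]
      norm_num
      split_ifs <;> norm_num
    · rw [h]
      norm_num
  set Am := ∏ k ∈ n.divisors with ArithmeticFunction.moebius (n / k) = 1, c k with hAm
  set Bm := ∏ k ∈ n.divisors with ArithmeticFunction.moebius (n / k) = -1, c k with hBm
  have hA0 : Am ≠ 0 := Finset.prod_ne_zero_iff.2 fun k hk => hne k (Finset.mem_filter.1 hk).1
  have hB0 : Bm ≠ 0 := Finset.prod_ne_zero_iff.2 fun k hk => hne k (Finset.mem_filter.1 hk).1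
  have hdvd : Bm ∣ Am := by
    rw [IsAlgClosed.dvd_iff_roots_le_roots hB0 hA0, Multiset.le_iff_count]
    intro s
    rw [count_roots, count_roots]
    have h1 := hsub s
    have h2 : (0 : ℤ) ≤ if Function.minimalPeriod (ratP1 p q d)
        (pt fun i => v i + s * u i) = n then 1 else 0 := by
      split_ifs <;> norm_num
    omega
  obtain ⟨G, hG⟩ := hdvd
  refine ⟨G, by rw [mul_comm]; exact hG.symm, fun s hs => ?_⟩
  have h1 := hsub s
  have hBG : Bm * G ≠ 0 := hG ▸ hA0
  have hG0 : G ≠ 0 := right_ne_zero_of_mul hBG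
  rw [hG, rootMultiplicity_mul hBG] at h1
  have h2 : 0 < G.rootMultiplicity s := (rootMultiplicity_pos hG0).2 hs
  by_contra hne'
  rw [if_neg hne'] at h1
  push_cast at h1
  omega

end Pool.Agent.Q203.GT
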